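import Pool.Agent.MP_0e6a9f_ag.H19.Spec

/-! The Hochschild class of a derivation and its characteristic morphism. -/

open MulOpposite

noncomputable section
namespace FMD
open _root_.FMD.DGR _root_.FMD.Bimod

section
variable {C : DGR} {m : ℤ} {θ : C.B →+ C.B}

lemma der_mul (h : IsDer C.self (m - 1) θ) (a b : C.B) : θ (a * b) = θ a * b + a * θ b := h.mul a b

lemma der_one (h : IsDer C.self (m - 1) θ) : θ 1 = 0 := by
  rw [← C.e_sum, map_sum]; exact Finset.sum_eq_zero fun a _ => h.e a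

/-- The right action twisted by the derivation. -/
@[reducible] def derR (h : IsDer C.self (m - 1) θ) : Module C.Bᵐᵒᵖ (C.B × C.B × C.B) where
  smul b v := (v.1 * b.unop, v.2.1 * b.unop, v.2.1 * θ b.unop + v.2.2 * b.unop)
  one_smul v := Prod.ext (mul_one _) (Prod.ext (mul_one _) (by
    change v.2.1 * θ 1 + v.2.2 * 1 = v.2.2
    rw [der_one h, mul_zero, zero_add, mul_one]))
  mul_smul a b v := Prod.ext (mul_assoc _ _ _).symm (Prod.ext (mul_assoc _ _ _).symm (by
    change v.2.1 * θ (b.unop * a.unop) + v.2.2 * (b.unop * a.unop) =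
      v.2.1 * b.unop * θ a.unop + (v.2.1 * θ b.unop + v.2.2 * b.unop) * a.unop
    rw [der_mul h]; noncomm_ring))
  smul_zero b := Prod.ext (zero_mul _) (Prod.ext (zero_mul _) (by
    change 0 * θ b.unop + 0 * b.unop = 0
    simp))
  smul_add b u v := Prod.ext (add_mul _ _ _) (Prod.ext (add_mul _ _ _) (by
    change (u.2.1 + v.2.1) * θ b.unop + (u.2.2 + v.2.2) * b.unop =
      (u.2.1 * θ b.unop + u.2.2 * b.unop) + (v.2.1 * θ b.unop + v.2.2 * b.unop)
    noncomm_ring))
  add_smul a b v := Prod.ext (mul_add _ _ _) (Prod.ext (mul_add _ _ _) (by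
    change v.2.1 * θ (a.unop + b.unop) + v.2.2 * (a.unop + b.unop) =
      (v.2.1 * θ a.unop + v.2.2 * a.unop) + (v.2.1 * θ b.unop + v.2.2 * b.unop)
    rw [map_add]; noncomm_ring))
  zero_smul v := Prod.ext (mul_zero _) (Prod.ext (mul_zero _) (by
    change v.2.1 * θ 0 + v.2.2 * 0 = 0
    simp))

/-- Triples `(u, x, y)` with the twisted right action and `d y` shifted by `u`. -/
def DerM (h : IsDer C.self (m - 1) θ) (hd : ∀ b, C.d (θ b) = θ (C.d b)) : Bimod C C :=
  { H := C.B × C.B × C.B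
    modR := derR h
    comm := @SMulCommClass.mk _ _ _ (_) (_) fun a b v => Prod.ext (mul_assoc a v.1 b.unop).symm
      (Prod.ext (mul_assoc a v.2.1 b.unop).symm (show a * (v.2.1 * θ b.unop + v.2.2 * b.unop) =
        a * v.2.1 * θ b.unop + a * v.2.2 * b.unop by rw [mul_add, mul_assoc, mul_assoc]))
    gr := fun n => (C.gr (n + m)).prod ((C.gr n).prod (C.gr (n + m - 1)))
    d := AddMonoidHom.mk' (fun v => (C.d v.1, C.d v.2.1, v.1 + C.d v.2.2)) fun u v =>
      Prod.ext (map_add _ _ _) (Prod.ext (map_add _ _ _) (by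
        change u.1 + v.1 + C.d (u.2.2 + v.2.2) = u.1 + C.d u.2.2 + (v.1 + C.d v.2.2)
        rw [map_add]; abel))
    d_mem := fun hv => ⟨C.mem_cast (C.d_mem hv.1) (by ring), C.d_mem hv.2.1,
      add_mem (C.mem_cast hv.1 (by ring)) (C.mem_cast (C.d_mem hv.2.2) (by ring))⟩
    d_d := fun v => Prod.ext (C.d_d _) (Prod.ext (C.d_d _) (by
      change C.d v.1 + C.d (v.1 + C.d v.2.2) = 0
      rw [map_add, C.d_d, add_zero, C.two]))
    l_mem := fun hb hv => ⟨C.mem_cast (C.mul_mem hb hv.1) (by ring), C.mul_mem hb hv.2.1,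
      C.mem_cast (C.mul_mem hb hv.2.2) (by ring)⟩
    r_mem := fun hb hv => ⟨C.mem_cast (C.mul_mem hv.1 hb) (by ring), C.mul_mem hv.2.1 hb,
      add_mem (C.mem_cast (C.mul_mem hv.2.1 (h.mem hb)) (by ring))
        (C.mem_cast (C.mul_mem hv.2.2 hb) (by ring))⟩
    d_l := fun b v => Prod.ext (C.d_mul _ _) (Prod.ext (C.d_mul _ _) (by
      change b * v.1 + C.d (b * v.2.2) = C.d b * v.2.2 + b * (v.1 + C.d v.2.2)
      rw [C.d_mul]; noncomm_ring))
    d_r := fun b v => Prod.ext (C.d_mul _ _) (Prod.ext (C.d_mul _ _) (by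
      change v.1 * b + C.d (v.2.1 * θ b + v.2.2 * b) =
        C.d v.2.1 * θ b + (v.1 + C.d v.2.2) * b + (v.2.1 * θ (C.d b) + v.2.2 * C.d b)
      rw [map_add, C.d_mul, C.d_mul, hd]; noncomm_ring)) }

variable (h : IsDer C.self (m - 1) θ) (hd : ∀ b, C.d (θ b) = θ (C.d b))

/-- The first component. -/
def DerM.nu : (DerM h hd).H →+ C.B := AddMonoidHom.fst C.B (C.B × C.B)
/-- The second component. -/
def DerM.pi : (DerM h hd).H →+ C.B :=
  (AddMonoidHom.fst C.B C.B).comp (AddMonoidHom.snd C.B (C.B × C.B))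
/-- The third component. -/
def DerM.tau : (DerM h hd).H →+ C.B :=
  (AddMonoidHom.snd C.B C.B).comp (AddMonoidHom.snd C.B (C.B × C.B))
/-- Triples. -/
def DerM.mk (u x y : C.B) : (DerM h hd).H := (u, x, y)

namespace DerM
variable {h hd}

lemma ext {u v : (DerM h hd).H} (h1 : nu h hd u = nu h hd v) (h2 : pi h hd u = pi h hd v)
    (h3 : tau h hd u = tau h hd v) : u = v := Prod.ext h1 (Prod.ext h2 h3)

lemma nu_isLin : IsLin (DerM h hd) C.self (nu h hd) := ⟨fun _ _ => rfl, fun _ _ => rfl⟩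

lemma nu_d (v : (DerM h hd).H) :
    C.self.d (nu h hd v) = nu h hd ((DerM h hd).d v) + (0 : (DerM h hd).H →+ C.B) v :=
  (add_zero _).symm

lemma pi_isHom : IsHom (DerM h hd) C.self (pi h hd) :=
  ⟨fun hv => hv.2.1, fun _ => rfl, fun _ _ => rfl, fun _ _ => rfl⟩

lemma pi_qis : Cx.Qis (DerM h hd).cx C.self.cx (pi h hd) where
  toIsMap := pi_isHom.isMap
  surj n w hw h0 := ⟨mk h hd 0 w 0, ⟨zero_mem _, hw, zero_mem _⟩,
    ext (h := h) (hd := hd) (map_zero C.d) h0 ((zero_add _).trans (map_zero C.d)), by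
      rw [show pi h hd (mk h hd 0 w 0) + w = 0 from C.two w]; exact Cx.Bd.zero n⟩
  inj n z hz h0 := by
    rintro ⟨w, hw, h1⟩
    have e : nu h hd z + C.d (tau h hd z) = 0 := congrArg (tau h hd) h0
    exact ⟨mk h hd (tau h hd z) w 0, ⟨C.mem_cast hz.2.2 (by ring), hw, zero_mem _⟩,
      ext (C.self.cx.eq_of_add e).symm h1 (by
        change tau h hd z + C.d 0 = _
        rw [map_zero, add_zero])⟩

/-- The universal closed element over the identity of a twisted complex. -/
def uni (X : Tw C) : Matrix X.I X.I (DerM h hd).H :=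
  fun i j => mk h hd (θ (X.δ i j)) (X.idm i j) 0

lemma uni_mem (X : Tw C) : uni X ∈ (DerM h hd).twGr X X 0 := fun i j => by
  have h1 := h.map_mem X.δ_twGr i j
  have h2 := X.idm_mem i j
  refine (DerM h hd).mem_cor ⟨C.mem_cast h1.1 (by ring), h2.1, zero_mem _⟩
    (ext (cor_l h1) (cor_l h2) (mul_zero _)) (ext (cor_r h1) (cor_r h2) ?_)
  change X.idm i j * θ (C.e _) + 0 * C.e _ = 0
  rw [h.e, mul_zero, zero_mul, add_zero]

lemma uni_d (X : Tw C) : (DerM h hd).twD X X (uni X) = 0 := by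
  have e1 := (nu_isLin (h := h) (hd := hd)).twD nu_d X X (uni X)
  have e2 := (pi_isHom (h := h) (hd := hd)).twD X X (uni X)
  rw [show (uni X).map (nu h hd) = X.δ.map θ from rfl, h.twD_δ] at e1
  rw [show (uni X).map (pi h hd) = X.idm from rfl, X.twD_idm] at e2
  ext i j
  refine ext ?_ (congrFun (congrFun e2 i) j).symm ?_
  · have := congrFun (congrFun e1 i) j
    change C.d (θ (X.δ i j)) + θ (C.d (X.δ i j)) = _ + 0 at this
    rw [hd, C.two, add_zero] at this
    exact this.symm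
  · have e := congrFun (congrFun (Tw.idm_mul (h.map_mem X.δ_twGr)) i) j
    rw [twD_apply, Matrix.add_apply, Matrix.add_apply, map_add, map_add, lmul, rmul, map_sum,
      map_sum]
    change θ (X.δ i j) + C.d 0 + ∑ k, X.δ i k * 0 +
      ∑ k, (X.idm i k * θ (X.δ k j) + 0 * X.δ k j) = 0
    simp only [map_zero, mul_zero, zero_mul, add_zero, Finset.sum_const_zero]
    exact (congrArg _ e).trans (C.two _)

end DerM
end

theorem der : DerStmt := by
  intro K _ C _ _ R m θ h hd hK
  let _ : Module K (DerM h hd).H := inferInstanceAs (Module K (C.B × C.B × C.B))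
  have _ : IsScalarTower K C.B (DerM h hd).H :=
    inferInstanceAs (IsScalarTower K C.B (C.B × C.B × C.B))
  have _ : IsScalarTower K C.Bᵐᵒᵖ (DerM h hd).H := ⟨fun c b v =>
    DerM.ext (mul_smul_comm c _ b.unop) (mul_smul_comm c _ b.unop) (by
      change DerM.pi h hd v * θ (c • b.unop) + DerM.tau h hd v * (c • b.unop) =
        c • (DerM.pi h hd v * θ b.unop + DerM.tau h hd v * b.unop)
      rw [hK, mul_smul_comm, mul_smul_comm, smul_add])⟩
  obtain ⟨a, ha, ha0, k, hk, hak⟩ :=
    ((DerM.pi_isHom (h := h) (hd := hd)).bh_qis DerM.pi_qis R.q).surj 0 R.a R.a_mem R.a_d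
  have hnu : ∀ n v, v ∈ (DerM h hd).gr n → DerM.nu h hd v ∈ C.self.gr (n + m) :=
    fun _ _ hv => hv.1
  refine ⟨fun i => DerM.nu h hd (a i),
    (BH R.q C.self).mem_cast (DerM.nu_isLin.bhGr hnu ha) (zero_add m), ?_,
    fun X p hp hp0 hb => ?_⟩
  · rw [DerM.nu_isLin.bhD DerM.nu_d, show bhD R.q (DerM h hd) a = 0 from ha0]
    ext i; simp
  · have hl := lift_isHom ha ha0
    have e1 := (lift_isLin k).twD (d_lift k) X X p
    rw [hp0, Matrix.map_zero _ (map_zero _), zero_add] at e1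
    obtain ⟨w, hw, e⟩ := (DerM.pi_isHom.tw_qis DerM.pi_qis X X).inj 0
      (p.map (lift R.q (DerM h hd) a) + DerM.uni X)
      (add_mem ((hl.tw X X).mem hp) (DerM.uni_mem X)) (by
        change (DerM h hd).twD X X _ = 0
        rw [map_add, DerM.uni_d, hl.twD, hp0, Matrix.map_zero _ (map_zero _), add_zero]) (by
        have hb' : (C.self.tw X X).Bd 0 (p.map (lift R.q C.self (bhD R.q C.self k))) :=
          ⟨_, (C.self.tw X X).mem_cast ((lift_isLin k).map_mem (fun n v hv => lift_mem hk hv) hp)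
            (zero_add _), e1⟩
        convert hb'.add hb using 1
        ext i j
        change DerM.pi h hd (lift R.q (DerM h hd) a (p i j) + DerM.uni X i j) =
          lift R.q C.self (bhD R.q C.self k) (p i j) + (R.aug (p i j) + X.idm i j)
        rw [map_add, DerM.pi_isHom.isLin.lift, show bhD R.q C.self k = _ from hak, lift_add,
          add_assoc, C.self.cx.add_add_cancel]
        rfl)
    refine ⟨w.map (DerM.nu h hd), (C.self.tw X X).mem_cast (DerM.nu_isLin.map_mem hnu hw)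
      (by ring), ?_⟩
    change C.self.twD X X _ = _
    rw [DerM.nu_isLin.twD DerM.nu_d, show (DerM h hd).twD X X w = _ from e]
    ext i j
    change DerM.nu h hd (lift R.q (DerM h hd) a (p i j) + DerM.uni X i j) + 0 =
      lift R.q C.self (fun i => DerM.nu h hd (a i)) (p i j) + θ (X.δ i j)
    rw [add_zero, map_add, DerM.nu_isLin.lift]
    rfl

end FMD
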